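import Pool.Agent.KS6_54.SBD.Forest

set_option autoImplicit false

/-!
# Minimal 2-edge-strongly biconnected digraphs on `n` vertices have at most `5 (n - 1)` arcs

Let `E` be the arc set of such a digraph, `F` a spanning strongly biconnected subdigraph with at
most `2 (n - 1)` arcs (open ears). Outside `F` at most `n - 1` arcs are critical for the strong
2-arc-connectivity of out-branchings from a root, at most `n - 1` for the one of in-branchings. The
remaining arcs outside `F` are critical only for the biconnectivity, and an uncrossing argument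
shows that they form a forest: every such arc `e` has a set `X`, a vertex `w` and an arc `f` of `F`
such that `e` and `f` are the only arcs between `X` and the rest after the deletion of `w`; in a set
of such arcs without bridges a second arc `g` joins `X` and `w`, and one of the two sides belonging
to `g` is a proper subset of `X`, since every set of vertices has at least four arcs in its
boundary. This gives `2 (n - 1) + (n - 1) + (n - 1) + (n - 1) = 5 (n - 1)`.
-/

namespace Pool.Agent.Results.MP_93593e_co.FiveN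

open Relation Pool.Agent.KS6_54.SBD

/-- Every minimal 2-edge-strongly biconnected digraph on `n ≥ 3` vertices has at most `5 (n - 1)`
arcs (even if loops are allowed). -/
theorem result (n : ℕ) (hn : 3 ≤ n) (E : Finset (Fin n × Fin n)) (hE : TSB E) (hmin : ∀ e ∈ E, ¬ TSB (E.erase e)) :
    E.card ≤ 5 * (n - 1) ∧ E.card ≤ 7 * n := by
  classical
  obtain ⟨F, hFE, hF, hc⟩ := exF n (by omega) E hE.1
  have hall : ∀ g, SB (E.erase g) := fun g => by
    by_cases h : g ∈ E
    · exact hE.2 g h
    · rw [Finset.erase_eq_of_notMem h]; exact hE.1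
  let r : Fin n := ⟨0, by omega⟩
  let O1 := (E \ F).filter fun e => ∃ f, ¬ Cut Prod.fst Prod.snd r ((E.erase e).erase f)
  let O2 := (E \ F).filter fun e => ∃ f, ¬ Cut Prod.snd Prod.fst r ((E.erase e).erase f)
  let C := (E \ F).filter fun e => (∀ g u v, ReflTransGen (R ((E.erase e).erase g)) u v) ∧
    ∃ f ∈ F, ∃ w X, Sep E w X e f
  have hd : ∀ (tl hd : Fin n × Fin n → Fin n) (e f : Fin n × Fin n),
      (∀ g, Cut tl hd r (E.erase g)) → ¬ Cut tl hd r ((E.erase e).erase f) → hd e ≠ r := by
    intro tl hd e f h1 h2 h3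
    unfold Cut at h2
    push Not at h2
    obtain ⟨X, hX, x, hx, h4⟩ := h2
    obtain ⟨a, ha, p1, p2⟩ := h1 f X hX x hx
    rw [Finset.mem_erase] at ha
    by_cases q : a = e
    · exact hX (h3 ▸ q ▸ p2)
    · exact h4 a (Finset.mem_erase.2 ⟨ha.1, Finset.mem_erase.2 ⟨q, ha.2⟩⟩) p1 p2
  have cr : (Finset.univ.erase r).card = n - 1 := by
    rw [Finset.card_erase_of_mem (Finset.mem_univ r)]
    simp
  have c1 : O1.card ≤ n - 1 := by
    have := Finset.card_le_card_of_injOn (s := O1) (t := Finset.univ.erase r) Prod.snd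
      (fun a ha => by
        obtain ⟨a1, f1, a2⟩ := Finset.mem_filter.1 (Finset.mem_coe.1 ha)
        exact Finset.mem_coe.2 (Finset.mem_erase.2 ⟨hd _ _ a f1
          (fun g => (cut_out r).2 ((hall g).1 r)) a2, Finset.mem_univ _⟩))
      (fun a ha b hb e => by
        obtain ⟨a1, f1, a2⟩ := Finset.mem_filter.1 (Finset.mem_coe.1 ha)
        obtain ⟨b1, f2, b2⟩ := Finset.mem_filter.1 (Finset.mem_coe.1 hb)
        exact cut_inj _ _ r hFE (fun g => (cut_out r).2 ((hall g).1 r)) ((cut_out r).2 (hF.1 r))
          (Finset.mem_sdiff.1 a1).2 (Finset.mem_sdiff.1 b1).2 a2 b2 e)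
    rwa [cr] at this
  have c2 : O2.card ≤ n - 1 := by
    have := Finset.card_le_card_of_injOn (s := O2) (t := Finset.univ.erase r) Prod.fst
      (fun a ha => by
        obtain ⟨a1, f1, a2⟩ := Finset.mem_filter.1 (Finset.mem_coe.1 ha)
        exact Finset.mem_coe.2 (Finset.mem_erase.2 ⟨hd _ _ a f1
          (fun g => (cut_in r).2 fun v => (hall g).1 v r) a2, Finset.mem_univ _⟩))
      (fun a ha b hb e => by
        obtain ⟨a1, f1, a2⟩ := Finset.mem_filter.1 (Finset.mem_coe.1 ha)
        obtain ⟨b1, f2, b2⟩ := Finset.mem_filter.1 (Finset.mem_coe.1 hb)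
        exact cut_inj _ _ r hFE (fun g => (cut_in r).2 fun v => (hall g).1 v r)
          ((cut_in r).2 fun v => hF.1 v r)
          (Finset.mem_sdiff.1 a1).2 (Finset.mem_sdiff.1 b1).2 a2 b2 e)
    rwa [cr] at this
  have c3 : C.card ≤ n - 1 := by
    by_contra hcon
    obtain ⟨K, hKC, ⟨e, he⟩, hb⟩ := bridgeless r C (by rw [Fintype.card_fin]; omega)
    have hK : ∀ e ∈ K, (∀ g u v, ReflTransGen (R ((E.erase e).erase g)) u v) ∧
        e ∉ F ∧ ∃ f ∈ F, ∃ w X, Sep E w X e f := fun e he => by
      obtain ⟨h1, h2, h3⟩ := Finset.mem_filter.1 (hKC he)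
      exact ⟨h2, (Finset.mem_sdiff.1 h1).2, h3⟩
    obtain ⟨-, -, f, hf, w, X, hs⟩ := hK e he
    exact desc (fun g => (hall g).1) hK
      (fun a ha => (Finset.mem_sdiff.1 (Finset.mem_filter.1 (hKC ha)).1).1) hb _ X le_rfl w e he f
      hf hs
  have cov : E ⊆ F ∪ O1 ∪ O2 ∪ C := by
    intro e he
    by_contra hcon
    simp only [Finset.mem_union, not_or] at hcon
    obtain ⟨⟨⟨n0, n1⟩, n2⟩, n3⟩ := hcon
    have m : e ∈ E \ F := Finset.mem_sdiff.2 ⟨he, n0⟩
    have str : ∀ f u v, ReflTransGen (R ((E.erase e).erase f)) u v := by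
      intro f u v
      have o1 : Cut Prod.fst Prod.snd r ((E.erase e).erase f) := by
        by_contra q; exact n1 (Finset.mem_filter.2 ⟨m, f, q⟩)
      have o2 : Cut Prod.snd Prod.fst r ((E.erase e).erase f) := by
        by_contra q; exact n2 (Finset.mem_filter.2 ⟨m, f, q⟩)
      exact ((cut_in r).1 o2 u).trans ((cut_out r).1 o1 v)
    refine hmin e he ⟨hall e, fun f _ => ?_⟩
    by_cases hf : f ∈ F
    · refine ⟨str f, fun w => ?_⟩
      rw [pre_iff]
      intro u v hu hv
      by_contra q
      have h0 := (pre_iff _ w).1 ((hall f).2 w) u v hu hv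
      let X : Fin n → Prop := fun a => ReflTransGen (U ((E.erase e).erase f) w) u a
      have hXw : ¬ X w := by
        intro h
        rcases ReflTransGen.cases_tail h with h | ⟨c, -, h⟩
        · exact hu h.symm
        · exact h.2.1 rfl
      have hcl : ∀ a ∈ E, a.1 ≠ w → a.2 ≠ w → Cr X a → a = e ∨ a = f := by
        intro a ha h1 h2 hc
        by_contra hne
        push Not at hne
        have haH : a ∈ (E.erase e).erase f :=
          Finset.mem_erase.2 ⟨hne.2, Finset.mem_erase.2 ⟨hne.1, ha⟩⟩
        rcases hc with ⟨p1, p2⟩ | ⟨p1, p2⟩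
        · exact p2 (ReflTransGen.tail p1 ⟨h1, h2, Or.inl haH⟩)
        · exact p1 (ReflTransGen.tail p2 ⟨h2, h1, Or.inr haH⟩)
      obtain ⟨a, b, ⟨h1, h2, h3⟩, ha, hb⟩ : ∃ a b, U (E.erase f) w a b ∧ X a ∧ ¬ X b := by
        by_contra hno
        push Not at hno
        refine q ?_
        clear q hv
        induction h0 with
        | refl => exact .refl
        | tail _ hbc ih => exact hno _ _ hbc ih
      have hsep : Sep E w X e f := by
        rcases h3 with h3 | h3
        · have hcr : Cr X (a, b) := Or.inl ⟨ha, hb⟩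
          have he' : (a, b) = e := (hcl (a, b) (Finset.mem_of_mem_erase h3) h1 h2
            hcr).resolve_right (Finset.mem_erase.1 h3).1
          rw [← he'] at hcl ⊢
          exact ⟨hXw, h1, h2, hcr, hcl⟩
        · have hcr : Cr X (b, a) := Or.inr ⟨hb, ha⟩
          have he' : (b, a) = e := (hcl (b, a) (Finset.mem_of_mem_erase h3) h2 h1
            hcr).resolve_right (Finset.mem_erase.1 h3).1
          rw [← he'] at hcl ⊢
          exact ⟨hXw, h2, h1, hcr, hcl⟩
      exact n3 (Finset.mem_filter.2 ⟨m, str, f, hf, w, X, hsep⟩)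
    · exact hF.mono fun a ha => Finset.mem_erase.2 ⟨fun q => hf (q ▸ ha),
        Finset.mem_erase.2 ⟨fun q => n0 (q ▸ ha), hFE ha⟩⟩
  have h1 := Finset.card_le_card cov
  have h2 := Finset.card_union_le (F ∪ O1 ∪ O2) C
  have h3 := Finset.card_union_le (F ∪ O1) O2
  have h4 := Finset.card_union_le F O1
  omega

end Pool.Agent.Results.MP_93593e_co.FiveN
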